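import Pool.Agent.E8helper76.TO.Three

/-!
# Parity of the coefficients of the series `T_o(q)`

The coefficient of `q^n` in `T_o(q) = ∑ q^(2m) (-q;q)_{2m} / (q;q²)_{m+1}` is even whenever
`8 n + 9` is not of the form `x² + 2 y²`.

Proof idea: with `v i = 1 / (q;q²)_i` for all integers `i`, the terms
`a(n,k) = q^(6k²+3k+2n) (q^(2n+2);q²)_n v(n+2k+1) v(n-2k)` satisfy
`a(n,k) - a(n,k+1) = b(n+1,k) - b(n,k)` with
`b(n,k) = q^(6k²+7k+1) (1 - q^(4k+3)) (q^(2n+2);q²)_n v(n+2k+2) v(n-2k-1)`. Summation over `n` and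
`k` gives `T_o(q) = ∑ q^(2k²+3k) + (q;q²)_∞^(-2) ∑ q^(6k²+7k+1) (1 - q^(4k+3))`, and modulo two
the infinite product is the square of the series of Euler's pentagonal number theorem.
-/

set_option autoImplicit false

namespace Pool.Agent.Results.MP_0c59fa_nt.EvenCoefficientsH76

open Finset PowerSeries
open scoped PowerSeries.WithPiTopology

/-- `(a;b)_n = ∏_{k<n} (1 - a b^k)` for power series `a`, `b` with integer coefficients. -/
noncomputable def qPoch (a b : PowerSeries ℤ) (n : ℕ) : PowerSeries ℤ :=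
  ∏ k ∈ range n, (1 - a * b ^ k)

/-- The summand `q^(2m) (-q;q)_{2m} / (q;q²)_{m+1}`; `invOfUnit f 1` is the inverse of the power
series `f` with constant coefficient one. -/
noncomputable def summand (m : ℕ) : PowerSeries ℤ :=
  X ^ (2 * m) * qPoch (-X) X (2 * m) * invOfUnit (qPoch X (X ^ 2) (m + 1)) 1

/-- The power series `T_o(q)`: the sum of the summands, in the topology of coefficientwise
convergence. -/
noncomputable def To : PowerSeries ℤ := ∑' m, summand m

theorem const_qPoch (n : ℕ) : constantCoeff (qPoch X (X ^ 2) n) = 1 := by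
  simp [qPoch, map_prod]

theorem qPoch_mul (n : ℕ) :
    qPoch X (X ^ 2) n * invOfUnit (qPoch X (X ^ 2) n) 1 = 1 :=
  mul_invOfUnit _ _ (by rw [const_qPoch]; rfl)

theorem coeff_summand {n m : ℕ} (h : n < 2 * m) : coeff n (summand m) = 0 := by
  rw [summand, mul_assoc, coeff_X_pow_mul', if_neg (by omega)]

theorem hasSum : HasSum summand To := by
  apply Summable.hasSum
  apply WithPiTopology.summable_of_tendsto_order_atTop_nhds_top
  refine ENat.tendsto_nhds_top_iff_natCast_lt.mpr fun n => ?_
  filter_upwards [Filter.eventually_ge_atTop (n + 1)] with m hm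
  have h1 : (2 * m : ℕ) ≤ (summand m).order := by
    apply le_order
    intro i hi
    exact coeff_summand (by exact_mod_cast hi)
  refine lt_of_lt_of_le ?_ h1
  exact_mod_cast (by omega : n < 2 * m)

theorem coeff_To (n M : ℕ) (h : n < 2 * M) :
    coeff n To = ∑ m ∈ range M, coeff n (summand m) := by
  have h1 : HasSum (fun m => coeff n (summand m)) (coeff n To) :=
    hasSum.map (coeff n) (WithPiTopology.continuous_coeff ℤ n)
  rw [← h1.tsum_eq]
  refine tsum_eq_sum fun m hm => ?_
  rw [mem_range, not_lt] at hm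
  exact coeff_summand (by omega)

open Pool.Agent.E8helper76.TO in
theorem map_summand (m : ℕ) : PowerSeries.map (Int.castRingHom (ZMod 2)) (summand m) =
    X ^ (2 * m) * D m * u (m + 1) * u m := by
  have h1 : PowerSeries.map (Int.castRingHom (ZMod 2)) (qPoch X (X ^ 2) (m + 1)) = P (m + 1) := by
    rw [qPoch, map_prod, P]
    refine prod_congr rfl fun k _ => ?_
    simp only [map_sub, map_mul, map_pow, PowerSeries.map_X, map_one]
    ring
  have h2 : PowerSeries.map (Int.castRingHom (ZMod 2)) (qPoch (-X) X (2 * m)) = F (2 * m) := by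
    rw [qPoch, map_prod, F]
    refine prod_congr rfl fun k _ => ?_
    simp only [map_sub, map_mul, map_pow, map_neg, PowerSeries.map_X, map_one]
    rw [neg_mul, neg_self]
    ring
  have h3 : PowerSeries.map (Int.castRingHom (ZMod 2))
      (invOfUnit (qPoch X (X ^ 2) (m + 1)) 1) = u (m + 1) := by
    have h4 := congrArg (PowerSeries.map (Int.castRingHom (ZMod 2))) (qPoch_mul (m + 1))
    rw [map_mul, h1, map_one] at h4
    have h5 := P_mul_u (m + 1)
    calc _ = (P (m + 1) * u (m + 1)) * PowerSeries.map (Int.castRingHom (ZMod 2))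
          (invOfUnit (qPoch X (X ^ 2) (m + 1)) 1) := by rw [h5, one_mul]
      _ = u (m + 1) * (P (m + 1) * PowerSeries.map (Int.castRingHom (ZMod 2))
          (invOfUnit (qPoch X (X ^ 2) (m + 1)) 1)) := by ring
      _ = _ := by rw [h4, mul_one]
  rw [summand, map_mul, map_mul, map_pow, PowerSeries.map_X, h2, h3, D_eq]
  linear_combination (-(X ^ (2 * m) * F (2 * m) * u (m + 1))) * P_mul_u m

/-- The summands of `T_o(q)` have the sum `T_o(q)` (coefficientwise; the denominators
`(q;q²)_{m+1}` are invertible), and the coefficient of `q^n` in `T_o(q)` is even for every `n` for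
which `8 n + 9` is not represented by `x² + 2 y²`. -/
theorem result :
    (∀ m : ℕ, qPoch X (X ^ 2) (m + 1) * invOfUnit (qPoch X (X ^ 2) (m + 1)) 1 = 1) ∧
    HasSum summand To ∧
    ∀ n : ℕ, (¬ ∃ x y : ℤ, 8 * (n : ℤ) + 9 = x ^ 2 + 2 * y ^ 2) → Even (coeff n To) := by
  refine ⟨fun m => qPoch_mul (m + 1), hasSum, fun n hn => ?_⟩
  have h1 := Pool.Agent.E8helper76.TO.parity_main n (3 * n + 10) le_rfl hn
  have h2 : ((coeff n To : ℤ) : ZMod 2) = 0 := by
    rw [coeff_To n (3 * n + 10) (by omega), ← h1, map_sum, Int.cast_sum]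
    refine sum_congr rfl fun m _ => ?_
    rw [← map_summand, coeff_map]
    rfl
  rw [ZMod.intCast_eq_zero_iff_even] at h2
  exact h2

end Pool.Agent.Results.MP_0c59fa_nt.EvenCoefficientsH76
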